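import Pool.Agent.Helper24.HW.Stmts

set_option autoImplicit false

namespace Pool.Agent.Helper61.HW

open Equiv Equiv.Perm Pool.Agent.Helper24.HW Pool.Agent.Helper24.HWPub Pool.Agent.Helper98.Gn

theorem DAD : ST_DAD := by
  intro T _ _ N _ ng ρ cur h
  refine ⟨fun g g' hg => ?_, fun g s => ⟨?_, ?_⟩⟩
  · obtain ⟨t, ht⟩ := h.sur (g' - g) (sub_ne_zero.2 (Ne.symm hg))
    refine ⟨Sum.inl (g, t), rfl, ?_⟩
    change (Sum.inl (g + cur t) : ZMod N ⊕ {t // ρ t = t}) = Sum.inl g'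
    rw [ht, add_sub_cancel]
  · exact ⟨Sum.inr ((g, s), false), rfl, rfl⟩
  · exact ⟨Sum.inr ((g, s), true), rfl, rfl⟩

end Pool.Agent.Helper61.HW
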