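import Pool.Agent.Helper24.HW.Stmts

set_option autoImplicit false

namespace Pool.Agent.Helper61.HW

open Equiv Equiv.Perm Pool.Agent.Helper24.HW Pool.Agent.Helper24.HWPub Pool.Agent.Helper98.Gn

theorem PAR (hsig : ST_SIG) (hcub : ST_CUB) : ST_PAR := by
  intro C M
  have hα : 2 * cyc M.α = Nat.card M.D := (hcub M.D M.α).1 M.hα M.hne
  have h1 := hsig M.D M.σ
  have h2 := hsig M.D M.α
  have h3 := hsig M.D (M.σ * M.α)
  rw [Perm.sign_mul, h1, h2, ← pow_add] at h3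
  have h4 : (-1 : ℤˣ) ^ (Nat.card M.D + cyc M.σ + (Nat.card M.D + cyc M.α) +
      (Nat.card M.D + cyc (M.σ * M.α))) = 1 := by
    rw [pow_add, h3, ← pow_add, ← two_mul, pow_mul]
    simp
  have h5 := (neg_one_pow_eq_one_iff_even (R := ℤˣ) (by decide)).1 h4
  rw [← hα] at h5
  have h6 : Even (cyc M.σ + cyc M.α + cyc (M.σ * M.α)) := by
    obtain ⟨r, hr⟩ := h5
    exact ⟨r - 3 * cyc M.α, by omega⟩
  refine ⟨?_, ?_⟩
  · unfold LM.chi
    rw [← hα, Nat.mul_div_cancel_left _ (by norm_num : 0 < 2)]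
    obtain ⟨r, hr⟩ := h6
    exact ⟨(r : ℤ) - cyc M.α, by omega⟩
  · rw [← hα]
    exact even_two_mul _

end Pool.Agent.Helper61.HW
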