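import Pool.Agent.Helper24.HW.Stmts

set_option autoImplicit false

namespace Pool.Agent.Helper61.HW

open Equiv Equiv.Perm Pool.Agent.Helper24.HW Pool.Agent.Helper24.HWPub Pool.Agent.Helper98.Gn

theorem sumCongr_zpow {D D' : Type} (f : Perm D) (f' : Perm D') (n : ℤ) :
    (Perm.sumCongr f f') ^ n = Perm.sumCongr (f ^ n) (f' ^ n) := by
  have h := map_zpow (Perm.sumCongrHom D D') (f, f') n
  exact h.symm

theorem sc_inl {D D' : Type} (f : Perm D) (f' : Perm D') (a b : D) :
    SameCycle (Perm.sumCongr f f') (Sum.inl a) (Sum.inl b) ↔ SameCycle f a b := by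
  unfold SameCycle
  simp only [sumCongr_zpow]
  constructor
  · rintro ⟨n, hn⟩
    exact ⟨n, Sum.inl.inj hn⟩
  · rintro ⟨n, hn⟩
    exact ⟨n, congrArg Sum.inl hn⟩

theorem sc_inr {D D' : Type} (f : Perm D) (f' : Perm D') (a b : D') :
    SameCycle (Perm.sumCongr f f') (Sum.inr a) (Sum.inr b) ↔ SameCycle f' a b := by
  unfold SameCycle
  simp only [sumCongr_zpow]
  constructor
  · rintro ⟨n, hn⟩
    exact ⟨n, Sum.inr.inj hn⟩
  · rintro ⟨n, hn⟩
    exact ⟨n, congrArg Sum.inr hn⟩

theorem sc_inl_inr {D D' : Type} (f : Perm D) (f' : Perm D') (a : D) (b : D') :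
    ¬ SameCycle (Perm.sumCongr f f') (Sum.inl a) (Sum.inr b) := by
  rintro ⟨n, hn⟩
  rw [sumCongr_zpow] at hn
  simp at hn

theorem PTU : ST_PTU := by
  intro D D' C _ _ f f' ℓ ℓ' A
  let i : Quotient (SameCycle.setoid f) → Quotient (SameCycle.setoid (Perm.sumCongr f f')) :=
    Quotient.map Sum.inl (fun a b h => (sc_inl f f' a b).2 h)
  let j : Quotient (SameCycle.setoid f') → Quotient (SameCycle.setoid (Perm.sumCongr f f')) :=
    Quotient.map Sum.inr (fun a b h => (sc_inr f f' a b).2 h)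
  have hi : Function.Injective i := by
    intro a b
    induction a using Quotient.inductionOn
    induction b using Quotient.inductionOn
    intro h
    exact Quotient.sound ((sc_inl f f' _ _).1 (Quotient.exact h))
  have hj : Function.Injective j := by
    intro a b
    induction a using Quotient.inductionOn
    induction b using Quotient.inductionOn
    intro h
    exact Quotient.sound ((sc_inr f f' _ _).1 (Quotient.exact h))
  have hij : ∀ a b, i a ≠ j b := by
    intro a b
    induction a using Quotient.inductionOn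
    induction b using Quotient.inductionOn
    intro h
    exact sc_inl_inr f f' _ _ (Quotient.exact h)
  have hfin : Finite (Quotient (SameCycle.setoid (Perm.sumCongr f f'))) := inferInstance
  have hset : {O : Quotient (SameCycle.setoid (Perm.sumCongr f f')) |
      ∃ z, Sum.elim ℓ ℓ' z = A ∧ Quotient.mk _ z = O} =
      i '' {O : Quotient (SameCycle.setoid f) | ∃ z, ℓ z = A ∧ Quotient.mk _ z = O} ∪
      j '' {O : Quotient (SameCycle.setoid f') | ∃ z, ℓ' z = A ∧ Quotient.mk _ z = O} := by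
    ext O
    constructor
    · rintro ⟨z, hz, rfl⟩
      rcases z with z | z
      · exact Or.inl ⟨_, ⟨z, hz, rfl⟩, rfl⟩
      · exact Or.inr ⟨_, ⟨z, hz, rfl⟩, rfl⟩
    · rintro (⟨_, ⟨z, hz, rfl⟩, rfl⟩ | ⟨_, ⟨z, hz, rfl⟩, rfl⟩)
      · exact ⟨Sum.inl z, hz, rfl⟩
      · exact ⟨Sum.inr z, hz, rfl⟩
  rw [hset, Set.ncard_union_eq _ (Set.toFinite _) (Set.toFinite _),
    Set.ncard_image_of_injective _ hi, Set.ncard_image_of_injective _ hj]
  rw [Set.disjoint_left]
  rintro _ ⟨a, _, rfl⟩ ⟨b, _, hb⟩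
  exact hij a b hb.symm

end Pool.Agent.Helper61.HW
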