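import Pool.Agent.Helper24.HW.Stmts

set_option autoImplicit false

namespace Pool.Agent.Helper61.HW

open Equiv Equiv.Perm Pool.Agent.Helper24.HW Pool.Agent.Helper24.HWPub Pool.Agent.Helper98.Gn

theorem SIG : ST_SIG := by
  intro X _ _ f
  induction f using Equiv.Perm.swap_induction_on' with
  | one =>
    rw [cyc_one, Perm.sign_one, ← two_mul, pow_mul]
    simp
  | mul_swap f x y hxy ih =>
    rw [Perm.sign_mul, Perm.sign_swap hxy, ih]
    by_cases h : SameCycle f x y
    · rw [cyc_split hxy h, ← add_assoc, pow_succ]
    · have h1 := cyc_merge h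
      rw [← h1, ← add_assoc, pow_succ, mul_assoc]
      norm_num

end Pool.Agent.Helper61.HW
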