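import Pool.Agent.Helper39.HV.NE

/-! # HW: the nuclear part of the row V2R0, without the number `Λ` -/

set_option autoImplicit false

namespace Pool.Agent.Helper61.HW

open MeasureTheory Filter Pool.Agent.Helper95 Pool.Agent.Helper95.PW Pool.Agent.Helper95.LN
  Pool.Agent.Helper95.CF Pool.Agent.Helper95.HV Pool.Agent.Helper53.LN Pool.Agent.Helper39.HV
open Pool.Agent.Helper82.PN (pgb_tri)

/-- one electron at `y` and the nuclei; the terms `2 Z_j T(e_m, α_m)`, `j` not the own nucleus,
are kept -/
def ST_NE0 : Prop := ∀ d : ℝ, 0 < d → d ≤ 1 → ∃ C : ℝ, 0 < C ∧ ∀ (z L : ℝ) (n M : ℕ)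
  (X : Fin M → R3) (Z : Fin M → ℝ) (y : R3), Dat d z n X Z → 1 ≤ L →
  (∀ j, 2 * nr (X j) + 4 ≤ L) → (∀ j, nr (y - X j) ≠ 0) →
  ∑ m, ∑ j, Z j * ((∑ i, gq (gm m L) y i * (y i - X j i)) / nr (y - X j) ^ 3 -
    Tq (y - X j) (gv (gm m L) y) (gv (gm m L) y) +
    2 * Tq (y - X j) (gv (gm m L) y) (gv (gN X m (d / 8)) y)) ≤
    C * z + C / L * pot X Z y +
    2 * ∑ m, ∑ i, (if nr (y - X i) ≤ d / 2 then
      (∑ j, if j = i then 0 else Z j * Tq (y - X j) (fun q => if q = m then 1 else 0)
        (gv (gN X m (d / 8)) y)) else 0)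

theorem tq_zero (ξ v : R3) : Tq ξ v 0 = 0 := by simp [Tq]

theorem NE0 (h1 : ST_FLD) (h2 : ST_CUT) : ST_NE0 := by
  intro d hd hd1
  obtain ⟨K1, hK1, HF⟩ := h1
  obtain ⟨K, hK, HC, _⟩ := h2
  have hK0 : 0 < K := by linarith
  have hK10 : 0 < K1 := by linarith
  refine ⟨2 * (46080 * K1 / d ^ 3) + 414 * K ^ 2, by positivity, ?_⟩
  intro z L n M X Z y hDat hL hXL hy
  change _ ≤ _ + 2 * ∑ m, ∑ i, (if nr (y - X i) ≤ d / 2 then
      (∑ j, if j = i then 0 else Z j * Tq (y - X j) (em m) (gv (gN X m (d / 8)) y)) else 0)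
  have hS := hDat.sep
  have hZ0 : ∀ j, 0 ≤ Z j := hDat.nuc.1
  have hz : 0 ≤ z := zero_le_one.trans hDat.z1
  have hL0 : 0 < L := by linarith
  have hr : ∀ j, 0 < nr (y - X j) := fun j => lt_of_le_of_ne (VIR_nr0 _) (Ne.symm (hy j))
  have hpot : 0 ≤ pot X Z y := by
    unfold pot
    exact Finset.sum_nonneg fun j _ => div_nonneg (hZ0 j) (VIR_nr0 _)
  have F := fun m => HF M X d (d / 8) (d / 8) m hd hS (by positivity) le_rfl (by linarith)
  have hthird : (∀ m, gv (gN X m (d / 8)) y = 0) →
      ∑ m, ∑ i, (if nr (y - X i) ≤ d / 2 then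
      (∑ j, if j = i then 0 else Z j * Tq (y - X j) (em m) (gv (gN X m (d / 8)) y)) else 0) = 0 := by
    intro h0
    refine Finset.sum_eq_zero fun m _ => Finset.sum_eq_zero fun i _ => ?_
    rw [h0 m]
    split_ifs
    · refine Finset.sum_eq_zero fun j _ => ?_
      rw [tq_zero]
      split_ifs <;> simp
    · rfl
  by_cases hyL : nr y < L
  · have hgv : ∀ m, gv (gm m L) y = em m := fun m => ne_gv (HC m L hL0).2.1 hyL
    have hgq : ∀ m i, gq (gm m L) y i = 0 := fun m i => ne_gq (HC m L hL0).2.1 hyL i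
    have e1 : ∀ j, ∑ m, Z j * ((∑ i, gq (gm m L) y i * (y i - X j i)) / nr (y - X j) ^ 3 -
        Tq (y - X j) (gv (gm m L) y) (gv (gm m L) y) +
        2 * Tq (y - X j) (gv (gm m L) y) (gv (gN X m (d / 8)) y)) =
        Z j * (2 * ∑ m, Tq (y - X j) (em m) (gv (gN X m (d / 8)) y)) := by
      intro j
      rw [← Finset.mul_sum, Finset.sum_add_distrib, Finset.sum_sub_distrib, ← Finset.mul_sum]
      simp only [hgv, hgq, zero_mul, Finset.sum_const_zero, zero_div]
      rw [ne_tr (hr j), sub_zero, zero_add]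
    rw [Finset.sum_comm, Finset.sum_congr rfl fun j _ => e1 j]
    by_cases hnear : ∃ i, nr (y - X i) ≤ d / 4
    · obtain ⟨i, hi⟩ := hnear
      have huniq : ∀ i', i' ≠ i → ¬ nr (y - X i') ≤ d / 2 := by
        intro i' hi' hcon
        have t1 := hS i i' (Ne.symm hi')
        have t2 := pgb_tri (X i) (X i') y
        linarith
      have hthird2 : ∑ m, ∑ i', (if nr (y - X i') ≤ d / 2 then
          (∑ j, if j = i' then 0 else Z j * Tq (y - X j) (em m) (gv (gN X m (d / 8)) y)) else 0) =
          ∑ m, ∑ j, if j = i then 0 else Z j * Tq (y - X j) (em m) (gv (gN X m (d / 8)) y) := by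
        refine Finset.sum_congr rfl fun m _ => ?_
        rw [Finset.sum_eq_single i (fun i' _ hi' => if_neg (huniq i' hi'))
          (fun h => absurd (Finset.mem_univ i) h), if_pos (by linarith)]
      rw [hthird2, Finset.sum_comm (s := (Finset.univ : Finset (Fin 3))), Finset.mul_sum]
      have hown : Z i * (2 * ∑ m, Tq (y - X i) (em m) (gv (gN X m (d / 8)) y)) ≤
          z * (2 * (46080 * K1 / d ^ 3)) := by
        have hb : ∀ m, Tq (y - X i) (em m) (gv (gN X m (d / 8)) y) ≤
            30 * (1 * K1) / nr (y - X i) ^ 3 := fun m =>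
          (le_abs_self _).trans (ne_tq zero_le_one hK10.le (em_le m) (fun l => (F m).1.d1 l y)
            (hr i))
        have hb3 : ∑ m, Tq (y - X i) (em m) (gv (gN X m (d / 8)) y) ≤
            90 * K1 / nr (y - X i) ^ 3 := by
          refine (Finset.sum_le_sum fun m _ => hb m).trans (le_of_eq ?_)
          simp
          ring
        have hbnd : ∑ m, Tq (y - X i) (em m) (gv (gN X m (d / 8)) y) ≤ 46080 * K1 / d ^ 3 := by
          by_cases h8 : nr (y - X i) < d / 8
          · have : ∑ m, Tq (y - X i) (em m) (gv (gN X m (d / 8)) y) =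
                ∑ m, Tq (y - X i) (em m) (em m) := by
              refine Finset.sum_congr rfl fun m _ => ?_
              have : gv (gN X m (d / 8)) y = em m := by
                funext l
                exact (F m).2.2.1 i y h8 l
              rw [this]
            rw [this, ne_tr (hr i)]
            positivity
          · push Not at h8
            refine hb3.trans ?_
            have h9 : (d / 8) ^ 3 ≤ nr (y - X i) ^ 3 := pow_le_pow_left₀ (by positivity) h8 3
            have h10 : 90 * K1 / nr (y - X i) ^ 3 ≤ 90 * K1 / (d / 8) ^ 3 :=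
              div_le_div_of_nonneg_left (by positivity) (by positivity) h9
            refine h10.trans (le_of_eq ?_)
            field_simp
            ring
        exact (mul_le_mul_of_nonneg_left (mul_le_mul_of_nonneg_left hbnd (by norm_num))
          (hZ0 i)).trans (mul_le_mul_of_nonneg_right (hDat.le i) (by positivity))
      have hj : ∀ j, Z j * (2 * ∑ m, Tq (y - X j) (em m) (gv (gN X m (d / 8)) y)) ≤
          (if j = i then z * (2 * (46080 * K1 / d ^ 3)) else 0) +
            2 * ∑ m, (if j = i then 0 else Z j * Tq (y - X j) (em m) (gv (gN X m (d / 8)) y)) := by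
        intro j
        by_cases hji : j = i
        · subst hji
          simp only [if_true, Finset.sum_const_zero, mul_zero, add_zero]
          exact hown
        · simp only [if_neg hji, zero_add]
          refine le_of_eq ?_
          rw [← Finset.mul_sum]
          ring
      refine (Finset.sum_le_sum fun j _ => hj j).trans ?_
      rw [Finset.sum_add_distrib, Finset.sum_ite_eq' Finset.univ i
        (fun _ => z * (2 * (46080 * K1 / d ^ 3))), if_pos (Finset.mem_univ i)]
      have t1 : 0 ≤ (2 * (46080 * K1 / d ^ 3) + 414 * K ^ 2) / L * pot X Z y := by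
        positivity
      have t2 : 0 ≤ 414 * K ^ 2 * z := by positivity
      have t3 : (2 * (46080 * K1 / d ^ 3) + 414 * K ^ 2) * z =
          z * (2 * (46080 * K1 / d ^ 3)) + 414 * K ^ 2 * z := by ring
      linarith
    · push Not at hnear
      have h0 : ∀ m, gv (gN X m (d / 8)) y = 0 := by
        intro m
        funext l
        exact (F m).2.2.2.1 y (fun j => by
          have := hnear j
          linarith) l
      have h00 : ∀ j, Z j * (2 * ∑ m, Tq (y - X j) (em m) (gv (gN X m (d / 8)) y)) = 0 := by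
        intro j
        simp only [h0]
        simp [Tq]
      rw [Finset.sum_congr rfl fun j _ => h00 j, Finset.sum_const_zero, hthird h0]
      positivity
  · push Not at hyL
    have hrL : ∀ j, L / 2 ≤ nr (y - X j) := by
      intro j
      have t1 := pgb_tri y 0 (X j)
      rw [sub_zero, sub_zero, VIR_sym (X j) y] at t1
      have := hXL j
      have := VIR_nr0 (X j)
      linarith
    have h0 : ∀ m, gv (gN X m (d / 8)) y = 0 := by
      intro m
      funext l
      exact (F m).2.2.2.1 y (fun j => by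
        have := hrL j
        linarith) l
    have hg1 : ∀ m i, |gv (gm m L) y i| ≤ K := fun m i => (HC m L hL0).1.d1 i y
    have hg2 : ∀ m i, |gq (gm m L) y i| ≤ 3 * (K / L * K) := by
      intro m i
      unfold gq
      refine (Finset.abs_sum_le_sum_abs _ _).trans ?_
      have h1 : ∀ l ∈ (Finset.univ : Finset (Fin 3)),
          |pd l (pd i (gm m L)) y * pd l (gm m L) y| ≤ K / L * K := by
        intro l _
        rw [abs_mul]
        exact mul_le_mul ((HC m L hL0).1.d2 l i y) ((HC m L hL0).1.d1 l y) (abs_nonneg _)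
          (by positivity)
      refine (Finset.sum_le_sum h1).trans (le_of_eq ?_)
      simp
    have hj : ∀ m j, Z j * ((∑ i, gq (gm m L) y i * (y i - X j i)) / nr (y - X j) ^ 3 -
        Tq (y - X j) (gv (gm m L) y) (gv (gm m L) y) +
        2 * Tq (y - X j) (gv (gm m L) y) (gv (gN X m (d / 8)) y)) ≤
        138 * K ^ 2 / L * (Z j / nr (y - X j)) := by
      intro m j
      have hrj := hr j
      have hrLj := hrL j
      have t0 : Tq (y - X j) (gv (gm m L) y) (gv (gN X m (d / 8)) y) = 0 := by
        rw [h0]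
        simp [Tq]
      have t1 : -Tq (y - X j) (gv (gm m L) y) (gv (gm m L) y) ≤
          30 * (K * K) / nr (y - X j) ^ 3 :=
        (neg_le_abs _).trans (ne_tq hK0.le hK0.le (hg1 m) (hg1 m) hrj)
      have t2 : (∑ i, gq (gm m L) y i * (y i - X j i)) ≤
          3 * (3 * (K / L * K)) * nr (y - X j) :=
        (le_abs_self _).trans (ne_dot (v := gq (gm m L) y) (ξ := y - X j) (by positivity)
          (hg2 m))
      have t3 : (∑ i, gq (gm m L) y i * (y i - X j i)) / nr (y - X j) ^ 3 ≤
          3 * (3 * (K / L * K)) * nr (y - X j) / nr (y - X j) ^ 3 :=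
        div_le_div_of_nonneg_right t2 (by positivity)
      have t4 : 3 * (3 * (K / L * K)) * nr (y - X j) / nr (y - X j) ^ 3 ≤
          18 * K ^ 2 / L * (1 / nr (y - X j)) := by
        have e : 3 * (3 * (K / L * K)) * nr (y - X j) / nr (y - X j) ^ 3 =
            9 * K ^ 2 / L * (1 / nr (y - X j)) * (1 / nr (y - X j)) := by
          field_simp
          ring
        have e2 : 1 / nr (y - X j) ≤ 2 := by
          rw [div_le_iff₀ hrj]
          linarith
        rw [e]
        have e3 : 9 * K ^ 2 / L * (1 / nr (y - X j)) * (1 / nr (y - X j)) ≤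
            9 * K ^ 2 / L * (1 / nr (y - X j)) * 2 :=
          mul_le_mul_of_nonneg_left e2 (by positivity)
        refine e3.trans (le_of_eq ?_)
        ring
      have t5 : 30 * (K * K) / nr (y - X j) ^ 3 ≤ 120 * K ^ 2 / L * (1 / nr (y - X j)) := by
        have e : 30 * (K * K) / nr (y - X j) ^ 3 =
            30 * K ^ 2 * (1 / nr (y - X j)) * (1 / nr (y - X j) ^ 2) := by
          field_simp
        have e2 : 1 / nr (y - X j) ^ 2 ≤ 4 / L := by
          have e3 : (L / 2) ^ 2 ≤ nr (y - X j) ^ 2 := pow_le_pow_left₀ (by positivity) hrLj 2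
          rw [div_le_div_iff₀ (by positivity) hL0]
          nlinarith
        rw [e]
        have e3 : 30 * K ^ 2 * (1 / nr (y - X j)) * (1 / nr (y - X j) ^ 2) ≤
            30 * K ^ 2 * (1 / nr (y - X j)) * (4 / L) :=
          mul_le_mul_of_nonneg_left e2 (by positivity)
        refine e3.trans (le_of_eq ?_)
        ring
      have t6 : (∑ i, gq (gm m L) y i * (y i - X j i)) / nr (y - X j) ^ 3 -
          Tq (y - X j) (gv (gm m L) y) (gv (gm m L) y) +
          2 * Tq (y - X j) (gv (gm m L) y) (gv (gN X m (d / 8)) y) ≤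
          138 * K ^ 2 / L * (1 / nr (y - X j)) := by
        rw [t0, mul_zero, add_zero]
        have e : 138 * K ^ 2 / L * (1 / nr (y - X j)) = 18 * K ^ 2 / L * (1 / nr (y - X j)) +
            120 * K ^ 2 / L * (1 / nr (y - X j)) := by ring
        rw [e]
        linarith
      refine (mul_le_mul_of_nonneg_left t6 (hZ0 j)).trans (le_of_eq ?_)
      ring
    have hsum : ∑ m : Fin 3, ∑ j, Z j * ((∑ i, gq (gm m L) y i * (y i - X j i)) /
        nr (y - X j) ^ 3 - Tq (y - X j) (gv (gm m L) y) (gv (gm m L) y) +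
        2 * Tq (y - X j) (gv (gm m L) y) (gv (gN X m (d / 8)) y)) ≤
        ∑ _m : Fin 3, ∑ j, 138 * K ^ 2 / L * (Z j / nr (y - X j)) :=
      Finset.sum_le_sum fun m _ => Finset.sum_le_sum fun j _ => hj m j
    refine hsum.trans ?_
    have e : ∑ _m : Fin 3, ∑ j, 138 * K ^ 2 / L * (Z j / nr (y - X j)) =
        414 * K ^ 2 / L * pot X Z y := by
      unfold pot
      rw [← Finset.mul_sum]
      simp
      ring
    rw [e, hthird h0, mul_zero, add_zero]
    have t1 : 0 ≤ (2 * (46080 * K1 / d ^ 3) + 414 * K ^ 2) * z := by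
      positivity
    have t2 : (2 * (46080 * K1 / d ^ 3) + 414 * K ^ 2) / L * pot X Z y =
        414 * K ^ 2 / L * pot X Z y + 2 * (46080 * K1 / d ^ 3) / L * pot X Z y := by
      ring
    have t3 : 0 ≤ 2 * (46080 * K1 / d ^ 3) / L * pot X Z y := by positivity
    linarith

end Pool.Agent.Helper61.HW
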